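import Pool.Agent.H22.AN.TB3
import Pool.Agent.H80.AN.TargetsA
import Pool.Agent.H35.SN.POH

/-! The Hessian bound in all dimensions (MP_2697e3_an): row PZ (weighted Pohozaev inequality with a
sharp error). -/

set_option autoImplicit false

namespace Pool.Agent.H69.AN

open MeasureTheory Metric Set Filter Topology Pool.Agent.H87.SN Pool.Agent.H87.SH Pool.Agent.H87.AX
open Pool.Agent.H22.AN
open scoped ContDiff RealInnerProductSpace ENNReal

namespace PZ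

theorem amgm {A B t : ℝ} (hA : 0 ≤ A) (hB : 0 ≤ B) (h : t ^ 2 ≤ 4 * A * B) : |t| ≤ A + B := by
  refine abs_le_of_sq_le_sq ?_ (by linarith)
  nlinarith [sq_nonneg (A - B)]

/-- the algebra of the inequality -/
theorem pw_alg {z g η κ n p j N ρ2 Z b E0 A B : ℝ} (hz0 : 0 ≤ z) (hz1 : z ≤ 1) (hg : 0 < g)
    (hg1 : g ≤ 1) (hη : 0 ≤ η) (hκ0 : 0 ≤ κ) (hκη : κ ≤ (2 - g) * η) (hn : 0 ≤ n) (hp : 0 ≤ p)
    (hj : 0 ≤ j) (hN : n + p + j ≤ N) (hκN : κ * N = κ * (n + p + j)) (hρ : 0 ≤ ρ2)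
    (hA : A ^ 2 ≤ g ^ 2 / 512 * (κ * η) * (n * p))
    (hB : η * B ^ 2 ≤ E0 * b ^ 2 * (n * (ρ2 * p)))
    (hZ : |η * Z| ≤ 8 * b * E0 * ρ2)
    (hb : 0 ≤ b) (hE : 0 ≤ E0) :
    z ^ 2 * (κ * N) ≤ (4 / g + 1) * (z ^ 2 * (κ * j)) +
      4 / g * (16 * b * E0 + 32 * E0 * b ^ 2 / g) * (ρ2 * N) +
      4 / g * ((2 * (z ^ 2 * η) - (z ^ 2 * κ - 2 * z * η * Z)) * n +
        (z ^ 2 * κ - 2 * z * η * Z) * p - (z ^ 2 * κ - 2 * z * η * Z) * j -
        2 * (z ^ 2 * A + 2 * z * η * B)) := by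
  have hN0 : 0 ≤ N := by linarith
  have hz2 : 0 ≤ z ^ 2 := sq_nonneg z
  -- the main cross term
  have c1 : |2 * A| ≤ g * η * n / 4 + κ * p / 4 := by
    refine amgm (by positivity) (by positivity) ?_
    have h0 : 0 ≤ (κ * η) * (n * p) := by positivity
    have h1 : g ^ 2 / 128 ≤ g / 4 := by nlinarith
    calc (2 * A) ^ 2 = 4 * A ^ 2 := by ring
      _ ≤ 4 * (g ^ 2 / 512 * (κ * η) * (n * p)) := by linarith
      _ = g ^ 2 / 128 * ((κ * η) * (n * p)) := by ring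
      _ ≤ g / 4 * ((κ * η) * (n * p)) := mul_le_mul_of_nonneg_right h1 h0
      _ = 4 * (g * η * n / 4) * (κ * p / 4) := by ring
  -- the first error term
  have c2 : |2 * z * (η * Z) * (n - p + j)| ≤ 16 * b * E0 * (ρ2 * N) := by
    have h1 : |n - p + j| ≤ N := abs_le.2 ⟨by linarith, by linarith⟩
    have h2 : |2 * z| ≤ 2 := by
      rw [abs_of_nonneg (by positivity)]
      linarith
    calc |2 * z * (η * Z) * (n - p + j)| = |2 * z| * |η * Z| * |n - p + j| := by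
          rw [abs_mul, abs_mul]
      _ ≤ 2 * (8 * b * E0 * ρ2) * N := by
          refine mul_le_mul (mul_le_mul h2 hZ (abs_nonneg _) (by norm_num)) h1 (abs_nonneg _) ?_
          positivity
      _ = 16 * b * E0 * (ρ2 * N) := by ring
  -- the second error term
  have c3 : |4 * z * η * B| ≤ z ^ 2 * (g * η * n) / 8 + 32 * E0 * b ^ 2 / g * (ρ2 * N) := by
    refine amgm (by positivity) (by positivity) ?_
    have h1 : n * (ρ2 * p) ≤ n * (ρ2 * N) := by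
      refine mul_le_mul_of_nonneg_left (mul_le_mul_of_nonneg_left ?_ hρ) hn
      linarith
    have h2 : (16 * z ^ 2 * η) * (η * B ^ 2) ≤
        (16 * z ^ 2 * η) * (E0 * b ^ 2 * (n * (ρ2 * N))) := by
      refine mul_le_mul_of_nonneg_left (hB.trans ?_) (by positivity)
      exact mul_le_mul_of_nonneg_left h1 (by positivity)
    calc (4 * z * η * B) ^ 2 = (16 * z ^ 2 * η) * (η * B ^ 2) := by ring
      _ ≤ (16 * z ^ 2 * η) * (E0 * b ^ 2 * (n * (ρ2 * N))) := h2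
      _ = 4 * (z ^ 2 * (g * η * n) / 8) * (32 * E0 * b ^ 2 / g * (ρ2 * N)) := by
          field_simp
          ring
  have d1 := mul_le_mul_of_nonneg_left (abs_le.1 c1).2 hz2
  have d2 := (abs_le.1 c2).1
  have d3 := (abs_le.1 c3).2
  set I : ℝ := (2 * (z ^ 2 * η) - (z ^ 2 * κ - 2 * z * η * Z)) * n +
        (z ^ 2 * κ - 2 * z * η * Z) * p - (z ^ 2 * κ - 2 * z * η * Z) * j -
        2 * (z ^ 2 * A + 2 * z * η * B) with hI
  set C' : ℝ := 16 * b * E0 + 32 * E0 * b ^ 2 / g with hC'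
  have eI : I = z ^ 2 * ((2 * η - κ) * n + κ * p) - z ^ 2 * (κ * j) +
      2 * z * (η * Z) * (n - p + j) - z ^ 2 * (2 * A) - 4 * z * η * B := by
    rw [hI]
    ring
  have l1 : z ^ 2 * (g * η * n) ≤ z ^ 2 * ((2 * η - κ) * n) := by
    refine mul_le_mul_of_nonneg_left ?_ hz2
    exact mul_le_mul_of_nonneg_right (by linarith) hn
  have lower : z ^ 2 * (5 / 8 * (g * η * n) + 3 / 4 * (κ * p)) ≤
      I + z ^ 2 * (κ * j) + C' * (ρ2 * N) := by
    rw [eI, hC']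
    nlinarith
  have hκn : z ^ 2 * (κ * n) ≤ z ^ 2 * (2 * η * n) := by
    refine mul_le_mul_of_nonneg_left ?_ hz2
    refine mul_le_mul_of_nonneg_right ?_ hn
    nlinarith
  have up : z ^ 2 * (κ * (n + p)) ≤
      4 / g * (z ^ 2 * (5 / 8 * (g * η * n) + 3 / 4 * (κ * p))) := by
    have e1 : 4 / g * (z ^ 2 * (5 / 8 * (g * η * n) + 3 / 4 * (κ * p))) =
        5 / 2 * (z ^ 2 * (η * n)) + 3 / g * (z ^ 2 * (κ * p)) := by
      field_simp
      ring
    have h3 : (1 : ℝ) ≤ 3 / g := by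
      rw [le_div_iff₀ hg]
      linarith
    have h4 : 0 ≤ z ^ 2 * (κ * p) := by positivity
    have h5 : 0 ≤ z ^ 2 * (η * n) := by positivity
    have h6 := mul_le_mul_of_nonneg_right h3 h4
    rw [e1]
    nlinarith
  have hg4 : (0 : ℝ) ≤ 4 / g := by positivity
  have l2 := mul_le_mul_of_nonneg_left lower hg4
  rw [hκN]
  have e2 : z ^ 2 * (κ * (n + p + j)) = z ^ 2 * (κ * (n + p)) + z ^ 2 * (κ * j) := by ring
  rw [e2]
  calc z ^ 2 * (κ * (n + p)) + z ^ 2 * (κ * j)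
      ≤ 4 / g * (I + z ^ 2 * (κ * j) + C' * (ρ2 * N)) + z ^ 2 * (κ * j) := by linarith
    _ = (4 / g + 1) * (z ^ 2 * (κ * j)) + 4 / g * C' * (ρ2 * N) + 4 / g * I := by ring

/-- a radial function has no derivative in the orthogonal directions -/
theorem radial_fderiv {d : ℕ} {ζ : V d → ℝ} (hζ : ContDiff ℝ 1 ζ)
    (hrad : ∀ x y : V d, ‖x‖ = ‖y‖ → ζ x = ζ y) {x v : V d} (hx : x ≠ 0) (hxv : ⟪x, v⟫ = 0) :
    fderiv ℝ ζ x v = 0 := by
  rcases eq_or_ne v 0 with rfl | hv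
  · exact map_zero _
  have hx0 : 0 < ‖x‖ := norm_pos_iff.2 hx
  have hv0 : 0 < ‖v‖ := norm_pos_iff.2 hv
  set w : V d := (‖x‖ / ‖v‖) • v with hw
  have hwn : ‖w‖ = ‖x‖ := by
    rw [hw, norm_smul, Real.norm_eq_abs, abs_of_pos (by positivity)]
    field_simp
  have hxw : ⟪x, w⟫ = 0 := by rw [hw, real_inner_smul_right, hxv, mul_zero]
  have hc : HasDerivAt (fun t : ℝ => Real.cos t • x + Real.sin t • w) w 0 := by
    have h1 := ((Real.hasDerivAt_cos 0).smul_const x).add ((Real.hasDerivAt_sin 0).smul_const w)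
    have h2 : (-Real.sin 0) • x + Real.cos 0 • w = w := by simp
    rw [h2] at h1
    exact h1
  have hcn : ∀ t : ℝ, ‖Real.cos t • x + Real.sin t • w‖ = ‖x‖ := by
    intro t
    have h1 : ‖Real.cos t • x + Real.sin t • w‖ ^ 2 = ‖x‖ ^ 2 := by
      rw [norm_add_sq_real, real_inner_smul_left, real_inner_smul_right, hxw, norm_smul, norm_smul,
        hwn, Real.norm_eq_abs, Real.norm_eq_abs, mul_pow, mul_pow, sq_abs, sq_abs]
      have h2 := Real.sin_sq_add_cos_sq t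
      nlinarith
    exact (pow_left_inj₀ (norm_nonneg _) (norm_nonneg _) two_ne_zero).1 h1
  have hd : HasFDerivAt ζ (fderiv ℝ ζ x) (Real.cos 0 • x + Real.sin 0 • w) := by
    have h1 : Real.cos 0 • x + Real.sin 0 • w = x := by simp
    rw [h1]
    exact ((hζ.differentiable (by norm_num)) x).hasFDerivAt
  have h2 := hd.comp_hasDerivAt (0 : ℝ) hc
  have h3 : (ζ ∘ fun t : ℝ => Real.cos t • x + Real.sin t • w) = fun _ => ζ x := by
    funext t
    exact hrad _ _ (hcn t)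
  rw [h3] at h2
  have h4 : fderiv ℝ ζ x w = 0 := h2.unique (hasDerivAt_const (0 : ℝ) (ζ x))
  rw [hw, map_smul, smul_eq_mul] at h4
  rcases mul_eq_zero.1 h4 with h5 | h5
  · exact absurd h5 (by positivity)
  · exact h5

theorem rho_sq {d : ℕ} (x : V d) : rho x ^ 2 = x 0 ^ 2 + x 1 ^ 2 := by
  unfold rho
  rw [Real.sq_sqrt (by positivity)]

theorem inner_bv {d : ℕ} (x : V d) (i : Fin (d + 2)) : ⟪x, (bv i : V d)⟫ = x i := by
  rw [bv, EuclideanSpace.inner_single_right]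
  simp

theorem inner_Pm {d : ℕ} (x : V d) : ⟪x, Pm d x⟫ = rho x ^ 2 := by
  have h := Pool.Agent.H35.SN.map_Pm (innerSL ℝ x) x
  simp only [innerSL_apply_apply, inner_bv, smul_eq_mul] at h
  rw [h, rho_sq]
  ring

theorem inner_Jm {d : ℕ} (x : V d) : ⟪x, Jm d x⟫ = 0 := by
  have h := Pool.Agent.H35.SN.map_Jm (innerSL ℝ x) x
  simp only [innerSL_apply_apply, inner_bv, smul_eq_mul] at h
  rw [h]
  ring

theorem norm_Pm {d : ℕ} (x : V d) : ‖Pm d x‖ = rho x := by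
  have h1 : ‖Pm d x‖ ^ 2 = rho x ^ 2 := by
    rw [Pool.Agent.H35.SN.norm_sq_sum, Pool.Agent.H35.SN.sum_split, rho_sq]
    have h : ∑ i : Fin d, (Pm d x) i.succ.succ ^ 2 = 0 := by
      refine Finset.sum_eq_zero fun i _ => ?_
      rw [Pool.Agent.H35.SN.Pm_apply, if_neg (by simp)]
      ring
    rw [h, Pool.Agent.H35.SN.Pm_apply, Pool.Agent.H35.SN.Pm_apply, if_pos (by simp),
      if_pos (by simp), add_zero]
  exact (pow_left_inj₀ (norm_nonneg _) (Pool.Agent.H35.SN.rho_nonneg x) two_ne_zero).1 h1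

theorem norm_sq_zp {d : ℕ} (x : V d) : ‖x‖ ^ 2 = x 0 ^ 2 + x 1 ^ 2 + ‖zp x‖ ^ 2 := by
  rw [Pool.Agent.H35.SN.norm_sq_sum, Pool.Agent.H35.SN.norm_sq_sum, Pool.Agent.H35.SN.sum_split]
  rfl

theorem rho_le_norm {d : ℕ} (x : V d) : rho x ≤ ‖x‖ := by
  have h1 := rho_sq x
  have h2 := norm_sq_zp x
  refine le_of_sq_le_sq ?_ (norm_nonneg x)
  nlinarith [sq_nonneg ‖zp x‖]

section cz

variable {d : ℕ} {ζ : V d → ℝ} {B : ℝ} (hz : Cz ζ B)
include hz

theorem cz_Jm (x : V d) : fderiv ℝ ζ x (Jm d x) = 0 := by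
  rcases eq_or_ne x 0 with rfl | hx
  · rw [map_zero, map_zero]
  · exact radial_fderiv hz.C1 hz.rad hx (inner_Jm x)

theorem cz_bd (x v : V d) : |fderiv ℝ ζ x v| ≤ |B| * ‖v‖ := by
  refine abs_le_of_sq_le_sq ?_ (by positivity)
  have h1 := Pool.Agent.H35.SN.abs_le_real (fderiv ℝ ζ x) v
  have h2 : nsq (fderiv ℝ ζ x) ≤ B ^ 2 := hz.gr x
  calc (fderiv ℝ ζ x v) ^ 2 ≤ ‖v‖ ^ 2 * nsq (fderiv ℝ ζ x) := h1
    _ ≤ ‖v‖ ^ 2 * B ^ 2 := mul_le_mul_of_nonneg_left h2 (by positivity)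
    _ = (|B| * ‖v‖) ^ 2 := by rw [mul_pow, sq_abs]; ring

theorem cz_rad {x : V d} (hx : x ≠ 0) (v : V d) :
    ‖x‖ ^ 2 * fderiv ℝ ζ x v = ⟪x, v⟫ * fderiv ℝ ζ x x := by
  have h1 : ⟪x, (‖x‖ ^ 2) • v - ⟪x, v⟫ • x⟫ = 0 := by
    rw [inner_sub_right, real_inner_smul_right, real_inner_smul_right, real_inner_self_eq_norm_sq]
    ring
  have h2 := radial_fderiv hz.C1 hz.rad hx h1
  rw [map_sub, map_smul, map_smul, smul_eq_mul, smul_eq_mul] at h2
  linarith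

theorem cz_small {x : V d} (hx : ‖x‖ < 1 / 8) : fderiv ℝ ζ x = 0 := by
  have h1 : ζ =ᶠ[𝓝 x] fun _ => (1 : ℝ) := by
    have h2 : ball (0 : V d) (1 / 8) ∈ 𝓝 x := isOpen_ball.mem_nhds (by rwa [mem_ball_zero_iff])
    filter_upwards [h2] with y hy
    exact hz.one y (mem_ball_zero_iff.1 hy).le
  rw [h1.fderiv_eq]
  exact fderiv_const_apply (1 : ℝ)

theorem cz_Pm {x : V d} (hx : 1 / 8 ≤ ‖x‖) : |fderiv ℝ ζ x (Pm d x)| ≤ 8 * |B| * rho x ^ 2 := by
  have hx0 : 0 < ‖x‖ := by linarith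
  have h1 := cz_rad hz (norm_pos_iff.1 hx0) (Pm d x)
  rw [inner_Pm] at h1
  have h2 := cz_bd hz x x
  have h3 : ‖x‖ ^ 2 * |fderiv ℝ ζ x (Pm d x)| = rho x ^ 2 * |fderiv ℝ ζ x x| := by
    have h4 := congrArg abs h1
    rw [abs_mul, abs_mul, abs_of_nonneg (sq_nonneg ‖x‖), abs_of_nonneg (sq_nonneg (rho x))] at h4
    exact h4
  have h5 : ‖x‖ * (‖x‖ * |fderiv ℝ ζ x (Pm d x)|) ≤ ‖x‖ * (rho x ^ 2 * |B|) := by
    have h6 : rho x ^ 2 * |fderiv ℝ ζ x x| ≤ rho x ^ 2 * (|B| * ‖x‖) :=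
      mul_le_mul_of_nonneg_left h2 (by positivity)
    linarith
  have h7 := le_of_mul_le_mul_left h5 hx0
  have h8 : 1 / 8 * |fderiv ℝ ζ x (Pm d x)| ≤ ‖x‖ * |fderiv ℝ ζ x (Pm d x)| :=
    mul_le_mul_of_nonneg_right hx (abs_nonneg _)
  linarith

end cz

/-- the bound of the weight -/
noncomputable def E0 (d : ℕ) : ℝ := (cc d ^ 2 / 65536) ^ (-(bb d / 2))

theorem cc_pos (d : ℕ) : 0 < cc d := by
  unfold cc
  positivity

theorem cc_le (d : ℕ) : cc d ≤ 1 := by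
  unfold cc
  rw [div_le_one (by positivity)]
  have : (0 : ℝ) ≤ d := Nat.cast_nonneg d
  linarith

theorem bb_nonneg (d : ℕ) : 0 ≤ bb d := by
  unfold bb
  positivity

theorem two_sub_bb (d : ℕ) : 2 - bb d = 1 / ((d : ℝ) + 1) := by
  unfold bb
  field_simp
  ring

theorem E0_nonneg (d : ℕ) : 0 ≤ E0 d := by
  unfold E0
  positivity

theorem et_le {d : ℕ} {σ : ℝ} (x : V d) (hx : 1 / 8 ≤ ‖x‖) : et σ x ≤ E0 d := by
  have hc := cc_pos d
  have hc1 := cc_le d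
  unfold et E0
  refine Real.rpow_le_rpow_of_nonpos (by positivity) ?_ (by linarith [bb_nonneg d])
  unfold DD
  have h1 := norm_sq_zp x
  have h2 : (1 / 8 : ℝ) ^ 2 ≤ ‖x‖ ^ 2 := pow_le_pow_left₀ (by norm_num) hx 2
  have hc2 : cc d ^ 2 ≤ 1 := by nlinarith
  by_cases h : 1 / 128 ≤ x 0 ^ 2 + x 1 ^ 2
  · have h3 : 0 ≤ cc d ^ 2 * (max 0 (‖zp x‖ ^ 2 - 1 / 256)) ^ 2 := by positivity
    nlinarith [sq_nonneg σ]
  · have h4 : (1 / 256 : ℝ) ≤ max 0 (‖zp x‖ ^ 2 - 1 / 256) := by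
      refine le_trans ?_ (le_max_right _ _)
      push Not at h
      nlinarith
    have h5 : (1 / 256 : ℝ) ^ 2 ≤ (max 0 (‖zp x‖ ^ 2 - 1 / 256)) ^ 2 :=
      pow_le_pow_left₀ (by norm_num) h4 2
    have h6 := mul_le_mul_of_nonneg_left h5 (sq_nonneg (cc d))
    nlinarith [sq_nonneg σ, sq_nonneg (x 0), sq_nonneg (x 1)]

theorem hZ_of {d : ℕ} {ζ : V d → ℝ} {B σ : ℝ} (hz : Cz ζ B) (hp : ∀ x : V d, 0 < et σ x)
    (x : V d) : |et σ x * fderiv ℝ ζ x (Pm d x)| ≤ 8 * |B| * E0 d * rho x ^ 2 := by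
  have hE := E0_nonneg d
  rcases lt_or_ge ‖x‖ (1 / 8) with h | h
  · rw [cz_small hz h]
    simp only [zero_apply, mul_zero, abs_zero]
    positivity
  · rw [abs_mul, abs_of_pos (hp x)]
    calc et σ x * |fderiv ℝ ζ x (Pm d x)| ≤ E0 d * (8 * |B| * rho x ^ 2) :=
          mul_le_mul (et_le x h) (cz_Pm hz h) (abs_nonneg _) hE
      _ = 8 * |B| * E0 d * rho x ^ 2 := by ring

/-! ### The cross term -/

/-- the cross term -/
noncomputable def cr {d m : ℕ} (α : V d →L[ℝ] ℝ) (T : V d →L[ℝ] E m) (x : V d) : ℝ :=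
  ∑ i : Fin d, α (bv i.succ.succ) * ⟪T (bv i.succ.succ), T (Pm d x)⟫

theorem app_Pm_sq {d m : ℕ} (T : V d →L[ℝ] E m) (x : V d) :
    ‖T (Pm d x)‖ ^ 2 = rho x ^ 2 * ((rho x ^ 2)⁻¹ * ‖T (Pm d x)‖ ^ 2) := by
  rcases (Pool.Agent.H35.SN.rho_nonneg x).eq_or_lt with h | h
  · have h1 : Pm d x = 0 := by
      rw [← norm_eq_zero, norm_Pm, ← h]
    rw [h1, ← h]
    simp
  · have h2 : 0 < rho x ^ 2 := by positivity
    field_simp

theorem nzs_real {d : ℕ} (α : V d →L[ℝ] ℝ) : nzs α = ∑ i : Fin d, α (bv i.succ.succ) ^ 2 := by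
  unfold nzs
  exact Finset.sum_congr rfl fun i _ => by rw [Real.norm_eq_abs, sq_abs]

theorem cr_sq_le {d m : ℕ} (α : V d →L[ℝ] ℝ) (T : V d →L[ℝ] E m) (x : V d) :
    cr α T x ^ 2 ≤ nzs α * (nzs T * (rho x ^ 2 * ((rho x ^ 2)⁻¹ * ‖T (Pm d x)‖ ^ 2))) := by
  rw [← app_Pm_sq]
  have h := Finset.sum_mul_sq_le_sq_mul_sq Finset.univ (fun i : Fin d => α (bv i.succ.succ))
    (fun i : Fin d => ⟪T (bv i.succ.succ), T (Pm d x)⟫)
  refine h.trans ?_
  rw [nzs_real]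
  refine mul_le_mul_of_nonneg_left ?_ (Finset.sum_nonneg fun _ _ => sq_nonneg _)
  unfold nzs
  rw [Finset.sum_mul]
  refine Finset.sum_le_sum fun i _ => ?_
  rw [← mul_pow, ← sq_abs]
  exact pow_le_pow_left₀ (abs_nonneg _) (abs_real_inner_le_norm _ _) 2

theorem inner_sq_le {d m : ℕ} (T : V d →L[ℝ] E m) (x : V d) (i : Fin d) :
    ⟪T (bv i.succ.succ), T (Pm d x)⟫ ^ 2 ≤
      nzs T * (rho x ^ 2 * ((rho x ^ 2)⁻¹ * ‖T (Pm d x)‖ ^ 2)) := by
  rw [← app_Pm_sq]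
  have h1 : ‖T (bv i.succ.succ)‖ ^ 2 ≤ nzs T :=
    Finset.single_le_sum (f := fun i : Fin d => ‖T (bv i.succ.succ)‖ ^ 2)
      (fun _ _ => sq_nonneg _) (Finset.mem_univ i)
  refine le_trans ?_ (mul_le_mul_of_nonneg_right h1 (sq_nonneg _))
  rw [← mul_pow, ← sq_abs]
  exact pow_le_pow_left₀ (abs_nonneg _) (abs_real_inner_le_norm _ _) 2

theorem inner_meas {d m : ℕ} {G : V d → V d →L[ℝ] E m} {μ : Measure (V d)}
    (hG : AEStronglyMeasurable G μ) (i : Fin d) :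
    AEStronglyMeasurable (fun x => ⟪G x (bv i.succ.succ), G x (Pm d x)⟫) μ := by
  have h1 : Continuous (fun p : (V d →L[ℝ] E m) × V d => ⟪p.1 (bv i.succ.succ), p.1 p.2⟫) := by
    have ha : Continuous (fun p : (V d →L[ℝ] E m) × V d => p.1 (bv i.succ.succ)) :=
      continuous_fst.clm_apply continuous_const
    have hb : Continuous (fun p : (V d →L[ℝ] E m) × V d => p.1 p.2) :=
      continuous_fst.clm_apply continuous_snd
    exact ha.inner hb
  have h2 : AEStronglyMeasurable (fun x : V d => Pm d x) μ :=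
    (Pm d).continuous.aestronglyMeasurable
  have h := Continuous.comp_aestronglyMeasurable (f := fun x => (G x, Pm d x)) h1 (hG.prodMk h2)
  exact h

theorem kap_nsq {d m : ℕ} (hLA1 : T_LA1) (T : V d →L[ℝ] E m) (x : V d) {κ c : ℝ}
    (hκ : κ = c * (rho x ^ 2)) :
    κ * nsq T =
      κ * (nzs T + (rho x ^ 2)⁻¹ * ‖T (Pm d x)‖ ^ 2 + (rho x ^ 2)⁻¹ * ‖T (Jm d x)‖ ^ 2) := by
  rcases (Pool.Agent.H35.SN.rho_nonneg x).eq_or_lt with h | h
  · rw [hκ, ← h]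
    ring
  · have h2 : 0 < rho x ^ 2 := by positivity
    have h1 := hLA1 d m T x
    have h3 : nsq T =
        nzs T + (rho x ^ 2)⁻¹ * ‖T (Pm d x)‖ ^ 2 + (rho x ^ 2)⁻¹ * ‖T (Jm d x)‖ ^ 2 := by
      have h4 : nsq T = (rho x ^ 2)⁻¹ * (rho x ^ 2 * nsq T) := by field_simp
      rw [h4, h1]
      field_simp
    rw [← h3]

/-- the field -/
theorem fd_field {d : ℕ} {ζ η : V d → ℝ} (hζ : ContDiff ℝ 1 ζ) (hη : ContDiff ℝ 1 η)
    (x v : V d) : fderiv ℝ (fun y => ζ y ^ 2 * η y) x v =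
      ζ x ^ 2 * fderiv ℝ η x v + 2 * ζ x * η x * fderiv ℝ ζ x v := by
  have h1 : HasFDerivAt ζ (fderiv ℝ ζ x) x :=
    ((hζ.differentiable (by norm_num)) x).hasFDerivAt
  have h2 : HasFDerivAt η (fderiv ℝ η x) x :=
    ((hη.differentiable (by norm_num)) x).hasFDerivAt
  have h3 := ((h1.mul h1).mul h2).fderiv
  have h4 : (fun y => ζ y ^ 2 * η y) = fun y => ζ y * ζ y * η y := by
    funext y
    ring
  rw [h4]
  have h5 := congrArg (fun T : V d →L[ℝ] ℝ => T v) h3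
  simp only [add_apply, smul_apply, smul_eq_mul, Pi.mul_apply] at h5
  refine h5.trans ?_
  ring

theorem cr_field {d m : ℕ} {ζ η : V d → ℝ} (hζ : ContDiff ℝ 1 ζ) (hη : ContDiff ℝ 1 η)
    (T : V d →L[ℝ] E m) (x : V d) : cr (fderiv ℝ (fun y => ζ y ^ 2 * η y) x) T x =
      ζ x ^ 2 * cr (fderiv ℝ η x) T x + 2 * ζ x * η x * cr (fderiv ℝ ζ x) T x := by
  unfold cr
  rw [Finset.mul_sum, Finset.mul_sum, ← Finset.sum_add_distrib]
  refine Finset.sum_congr rfl fun i _ => ?_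
  rw [fd_field hζ hη]
  ring

theorem bd_mul {d m : ℕ} {G : V d → V d →L[ℝ] E m}
    (hG : MemLp G 2 (volume.restrict (ball (0 : V d) 2))) {c g : V d → ℝ} (hc : Continuous c)
    (hg : AEStronglyMeasurable g (volume.restrict (ball (0 : V d) 2))) {K : ℝ}
    (hK : ∀ x ∈ ball (0 : V d) 2, |g x| ≤ K * nsq (G x)) :
    Integrable (fun x => c x * g x) (volume.restrict (ball (0 : V d) 2)) := by
  obtain ⟨M, hM⟩ := Pool.Agent.H35.SN.bd_ball c hc
  refine Pool.Agent.H35.SN.int_of_le hG _ (M * K) (hc.aestronglyMeasurable.mul hg) ?_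
  intro x hx
  rw [abs_mul]
  have h1 := hM x hx
  have h2 := hK x hx
  calc |c x| * |g x| ≤ M * (K * nsq (G x)) :=
        mul_le_mul h1 h2 (abs_nonneg _) ((abs_nonneg _).trans h1)
    _ = M * K * nsq (G x) := by ring

/-- the pointwise inequality -/
theorem pointwise {d m : ℕ} (hWTS : T_WTS) (hLA1 : T_LA1) (hd : 1 ≤ d) {ζ : V d → ℝ} {B σ : ℝ}
    (hz : Cz ζ B) (hσ : 0 < σ) (T : V d →L[ℝ] E m) {x : V d} (hx : x ∈ ball (0 : V d) 1) :
    ζ x ^ 2 * (kap (et σ) x * nsq T) ≤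
      (4 / (2 - bb d) + 1) * (ζ x ^ 2 * (kap (et σ) x * ((rho x ^ 2)⁻¹ * ‖T (Jm d x)‖ ^ 2))) +
      4 / (2 - bb d) * (16 * |B| * E0 d + 32 * E0 d * |B| ^ 2 / (2 - bb d)) *
        (rho x ^ 2 * nsq T) +
      4 / (2 - bb d) * ((2 * (ζ x ^ 2 * et σ x) - kap (fun y => ζ y ^ 2 * et σ y) x) * nzs T +
        kap (fun y => ζ y ^ 2 * et σ y) x * ((rho x ^ 2)⁻¹ * ‖T (Pm d x)‖ ^ 2) -
        kap (fun y => ζ y ^ 2 * et σ y) x * ((rho x ^ 2)⁻¹ * ‖T (Jm d x)‖ ^ 2) -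
        2 * cr (fderiv ℝ (fun y => ζ y ^ 2 * et σ y) x) T x) := by
  obtain ⟨w1, w2, w3, w4, w5, w6, w7, -⟩ := hWTS d hd σ hσ
  have hE := E0_nonneg d
  have hg0 : 0 < 2 - bb d := by
    rw [two_sub_bb]
    positivity
  have hg1 : 2 - bb d ≤ 1 := by
    rw [two_sub_bb, div_le_one (by positivity)]
    have : (0 : ℝ) ≤ d := Nat.cast_nonneg d
    linarith
  have hkf : kap (fun y => ζ y ^ 2 * et σ y) x = ζ x ^ 2 * kap (et σ) x -
      2 * ζ x * et σ x * fderiv ℝ ζ x (Pm d x) := by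
    unfold kap
    rw [fd_field hz.C1 w1]
    ring
  have hκ0 : 0 ≤ kap (et σ) x := by
    rw [w5]
    have h1 := w2 x
    have h2 := bb_nonneg d
    positivity
  have hkN := kap_nsq hLA1 T x (κ := kap (et σ) x)
    (c := bb d * DD σ x ^ (-(bb d / 2 + 1))) (by rw [w5]; ring)
  have hn0 : 0 ≤ nzs T := Pool.Agent.H35.SN.nzs_nonneg _
  have hp0 : 0 ≤ (rho x ^ 2)⁻¹ * ‖T (Pm d x)‖ ^ 2 := by positivity
  have hj0 : 0 ≤ (rho x ^ 2)⁻¹ * ‖T (Jm d x)‖ ^ 2 := by positivity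
  have hsp := Pool.Agent.H35.SN.split_le hLA1 T x
  have hη := (w3 x).le
  -- the cross terms
  have hA : cr (fderiv ℝ (et σ) x) T x ^ 2 ≤
      (2 - bb d) ^ 2 / 512 * (kap (et σ) x * et σ x) *
        (nzs T * ((rho x ^ 2)⁻¹ * ‖T (Pm d x)‖ ^ 2)) := by
    refine (cr_sq_le _ T x).trans ?_
    have h1 := mul_le_mul_of_nonneg_right (w7 x hx) (mul_nonneg hn0 hp0)
    calc nzs (fderiv ℝ (et σ) x) * (nzs T * (rho x ^ 2 * ((rho x ^ 2)⁻¹ * ‖T (Pm d x)‖ ^ 2)))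
        = rho x ^ 2 * nzs (fderiv ℝ (et σ) x) *
          (nzs T * ((rho x ^ 2)⁻¹ * ‖T (Pm d x)‖ ^ 2)) := by ring
      _ ≤ _ := h1
  have hB : et σ x * cr (fderiv ℝ ζ x) T x ^ 2 ≤
      E0 d * |B| ^ 2 * (nzs T * (rho x ^ 2 * ((rho x ^ 2)⁻¹ * ‖T (Pm d x)‖ ^ 2))) := by
    have hR : 0 ≤ nzs T * (rho x ^ 2 * ((rho x ^ 2)⁻¹ * ‖T (Pm d x)‖ ^ 2)) :=
      mul_nonneg hn0 (mul_nonneg (sq_nonneg _) hp0)
    rcases lt_or_ge ‖x‖ (1 / 8) with h | h
    · have h1 : cr (fderiv ℝ ζ x) T x = 0 := by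
        rw [cz_small hz h]
        unfold cr
        simp
      rw [h1]
      have : 0 ≤ E0 d * |B| ^ 2 *
        (nzs T * (rho x ^ 2 * ((rho x ^ 2)⁻¹ * ‖T (Pm d x)‖ ^ 2))) := by positivity
      simpa using this
    · have h1 := cr_sq_le (fderiv ℝ ζ x) T x
      have h2 : nzs (fderiv ℝ ζ x) ≤ |B| ^ 2 := by
        rw [sq_abs]
        refine le_trans ?_ (hz.gr x)
        have h3 := Pool.Agent.H35.SN.nsq_split (fderiv ℝ ζ x)
        have h4 : gsq ζ x = nsq (fderiv ℝ ζ x) := rfl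
        rw [h4, h3]
        have : 0 ≤ ‖fderiv ℝ ζ x (bv 0)‖ ^ 2 + ‖fderiv ℝ ζ x (bv 1)‖ ^ 2 := by positivity
        linarith
      have h3 : cr (fderiv ℝ ζ x) T x ^ 2 ≤ |B| ^ 2 *
          (nzs T * (rho x ^ 2 * ((rho x ^ 2)⁻¹ * ‖T (Pm d x)‖ ^ 2))) :=
        h1.trans (mul_le_mul_of_nonneg_right h2 hR)
      calc et σ x * cr (fderiv ℝ ζ x) T x ^ 2 ≤ E0 d * (|B| ^ 2 *
          (nzs T * (rho x ^ 2 * ((rho x ^ 2)⁻¹ * ‖T (Pm d x)‖ ^ 2)))) :=
            mul_le_mul (et_le x h) h3 (sq_nonneg _) hE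
        _ = _ := by ring
  have h := pw_alg (z := ζ x) (g := 2 - bb d) (η := et σ x) (κ := kap (et σ) x)
    (n := nzs T) (p := (rho x ^ 2)⁻¹ * ‖T (Pm d x)‖ ^ 2) (j := (rho x ^ 2)⁻¹ * ‖T (Jm d x)‖ ^ 2)
    (N := nsq T) (ρ2 := rho x ^ 2) (Z := fderiv ℝ ζ x (Pm d x)) (b := |B|) (E0 := E0 d)
    (A := cr (fderiv ℝ (et σ) x) T x) (B := cr (fderiv ℝ ζ x) T x)
    (hz.bd x).1 (hz.bd x).2 hg0 hg1 hη hκ0 (by have := w6 x; linarith) hn0 hp0 hj0 hsp hkN
    (sq_nonneg _) hA hB (hZ_of hz w3 x) (abs_nonneg _) hE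
  rw [hkf, cr_field hz.C1 w1]
  exact h

end PZ

open PZ

/-- The statement of the row PZ. -/
theorem pf_PZ (hPID : T_PID) (hWTS : T_WTS) (hLA1 : T_LA1) (_hLA3 : T_LA3) (_hMUF : T_MUF) :
    T_PZ := by
  intro d ζ B hd hz
  have hE := E0_nonneg d
  have hg0 : 0 < 2 - bb d := by
    rw [two_sub_bb]
    positivity
  set C₁ : ℝ := 4 / (2 - bb d) + 1 with hC₁
  set C₂ : ℝ := 4 / (2 - bb d) * (16 * |B| * E0 d + 32 * E0 d * |B| ^ 2 / (2 - bb d)) with hC₂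
  have hC₁0 : 0 ≤ C₁ := by positivity
  have hC₂0 : 0 ≤ C₂ := by positivity
  refine ⟨C₁ + C₂, by positivity, ?_⟩
  intro m G hG hS σ hσ hσ2
  obtain ⟨w1, w2, w3, w4, w5, w6, w7, -⟩ := hWTS d hd σ hσ
  set f : V d → ℝ := fun y => ζ y ^ 2 * et σ y with hf
  have hf1 : ContDiff ℝ 1 f := (hz.C1.pow 2).mul w1
  have hsupp : Function.support f ⊆ closedBall (0 : V d) (1 / 4) := by
    intro x hx
    by_contra h
    rw [mem_closedBall_zero_iff, not_le] at h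
    refine hx ?_
    rw [hf]
    simp only
    rw [hz.zero x h.le]
    ring
  have hfc : HasCompactSupport f :=
    HasCompactSupport.of_support_subset_isCompact (isCompact_closedBall 0 (1 / 4)) hsupp
  have hfs : tsupport f ⊆ ball 0 2 :=
    (closure_minimal hsupp isClosed_closedBall).trans (closedBall_subset_ball (by norm_num))
  have hfJ : ∀ x, fderiv ℝ f x (Jm d x) = 0 := by
    intro x
    rw [hf, fd_field hz.C1 w1, w4, cz_Jm hz]
    ring
  have hP := hPID d m G hG hS f hf1 hfc hfs hfJ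
  have hκ0 : ∀ x, 0 ≤ kap (et (d := d) σ) x := by
    intro x
    rw [w5]
    have h1 := w2 x
    have h2 := bb_nonneg d
    positivity
  have hκc : Continuous (fun x : V d => kap (et σ) x) := by
    unfold kap
    exact ((w1.continuous_fderiv (by norm_num)).clm_apply (Pm d).continuous).neg
  have hkfc : Continuous (fun x : V d => kap f x) := by
    unfold kap
    exact ((hf1.continuous_fderiv (by norm_num)).clm_apply (Pm d).continuous).neg
  have hζ2 : Continuous (fun x => ζ x ^ 2) := hz.C1.continuous.pow 2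
  -- the measurable pieces
  have mN : AEStronglyMeasurable (fun x => nsq (G x)) (volume.restrict (ball (0 : V d) 2)) :=
    Pool.Agent.H35.SN.cont_nsq.comp_aestronglyMeasurable hG.1
  have mn : AEStronglyMeasurable (fun x => nzs (G x)) (volume.restrict (ball (0 : V d) 2)) :=
    Pool.Agent.H35.SN.cont_nzs.comp_aestronglyMeasurable hG.1
  have mp : AEStronglyMeasurable (fun x => (rho x ^ 2)⁻¹ * ‖G x (Pm d x)‖ ^ 2)
      (volume.restrict (ball (0 : V d) 2)) :=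
    (Pool.Agent.H35.SN.rho_meas _).mul (Pool.Agent.H35.SN.app_meas hG.1 _ (Pm d).continuous)
  have mj : AEStronglyMeasurable (fun x => (rho x ^ 2)⁻¹ * ‖G x (Jm d x)‖ ^ 2)
      (volume.restrict (ball (0 : V d) 2)) :=
    (Pool.Agent.H35.SN.rho_meas _).mul (Pool.Agent.H35.SN.app_meas hG.1 _ (Jm d).continuous)
  have hN0 : ∀ x, 0 ≤ nsq (G x) := fun x => Pool.Agent.H35.SN.nsq_nonneg _
  have hn0 : ∀ x, 0 ≤ nzs (G x) := fun x => Pool.Agent.H35.SN.nzs_nonneg _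
  have hp0 : ∀ x, 0 ≤ (rho x ^ 2)⁻¹ * ‖G x (Pm d x)‖ ^ 2 := fun x => by positivity
  have hj0 : ∀ x, 0 ≤ (rho x ^ 2)⁻¹ * ‖G x (Jm d x)‖ ^ 2 := fun x => by positivity
  have hsp : ∀ x, nzs (G x) + (rho x ^ 2)⁻¹ * ‖G x (Pm d x)‖ ^ 2 +
      (rho x ^ 2)⁻¹ * ‖G x (Jm d x)‖ ^ 2 ≤ nsq (G x) := fun x =>
    Pool.Agent.H35.SN.split_le hLA1 (G x) x
  have bN : ∀ x ∈ ball (0 : V d) 2, |nsq (G x)| ≤ 1 * nsq (G x) := fun x _ => by
    rw [abs_of_nonneg (hN0 x), one_mul]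
  have bn : ∀ x ∈ ball (0 : V d) 2, |nzs (G x)| ≤ 1 * nsq (G x) := fun x _ => by
    rw [abs_of_nonneg (hn0 x), one_mul]
    linarith [hp0 x, hj0 x, hsp x]
  have bp : ∀ x ∈ ball (0 : V d) 2, |(rho x ^ 2)⁻¹ * ‖G x (Pm d x)‖ ^ 2| ≤ 1 * nsq (G x) :=
    fun x _ => by
      rw [abs_of_nonneg (hp0 x), one_mul]
      linarith [hn0 x, hj0 x, hsp x]
  have bj : ∀ x ∈ ball (0 : V d) 2, |(rho x ^ 2)⁻¹ * ‖G x (Jm d x)‖ ^ 2| ≤ 1 * nsq (G x) :=
    fun x _ => by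
      rw [abs_of_nonneg (hj0 x), one_mul]
      linarith [hn0 x, hp0 x, hsp x]
  have ba : ∀ i : Fin d, ∀ x ∈ ball (0 : V d) 2,
      |⟪G x (bv i.succ.succ), G x (Pm d x)⟫| ≤ 2 * nsq (G x) := by
    intro i x hx
    refine abs_le_of_sq_le_sq ?_ (by linarith [hN0 x])
    have h1 := inner_sq_le (G x) x i
    have h2 : rho x ≤ 2 := (rho_le_norm x).trans (mem_ball_zero_iff.1 hx).le
    have h3 : 0 ≤ rho x := Pool.Agent.H35.SN.rho_nonneg x
    have h4 : rho x ^ 2 ≤ 4 := by nlinarith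
    have h5 : nzs (G x) ≤ nsq (G x) := by linarith [hp0 x, hj0 x, hsp x]
    have h6 : (rho x ^ 2)⁻¹ * ‖G x (Pm d x)‖ ^ 2 ≤ nsq (G x) := by
      linarith [hn0 x, hj0 x, hsp x]
    calc ⟪G x (bv i.succ.succ), G x (Pm d x)⟫ ^ 2
        ≤ nzs (G x) * (rho x ^ 2 * ((rho x ^ 2)⁻¹ * ‖G x (Pm d x)‖ ^ 2)) := h1
      _ ≤ nsq (G x) * (4 * nsq (G x)) := by
          refine mul_le_mul h5 (mul_le_mul h4 h6 (hp0 x) (by norm_num)) ?_ (hN0 x)
          exact mul_nonneg (sq_nonneg _) (hp0 x)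
      _ = (2 * nsq (G x)) ^ 2 := by ring
  -- integrability
  have iA : Integrable (fun x => ζ x ^ 2 * (kap (et σ) x * nsq (G x)))
      (volume.restrict (ball (0 : V d) 2)) := by
    have h := bd_mul hG (c := fun x => ζ x ^ 2 * kap (et σ) x) (hζ2.mul hκc) mN bN
    refine h.congr (Eventually.of_forall fun x => ?_)
    simp only
    ring
  have iD : Integrable (fun x => ζ x ^ 2 *
      (kap (et σ) x * ((rho x ^ 2)⁻¹ * ‖G x (Jm d x)‖ ^ 2)))
      (volume.restrict (ball (0 : V d) 2)) := by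
    have h := bd_mul hG (c := fun x => ζ x ^ 2 * kap (et σ) x) (hζ2.mul hκc) mj bj
    refine h.congr (Eventually.of_forall fun x => ?_)
    simp only
    ring
  have hρc : Continuous (fun x : V d => rho x ^ 2) := Pool.Agent.H35.SN.cont_rho.pow 2
  have iR0 : Integrable (fun x => rho x ^ 2 * nsq (G x)) (volume.restrict (ball (0 : V d) 2)) :=
    bd_mul hG hρc mN bN
  have iR : Integrable ((ball (0 : V d) (1 / 4)).indicator (fun x => rho x ^ 2 * nsq (G x)))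
      (volume.restrict (ball (0 : V d) 2)) := iR0.indicator measurableSet_ball
  have iI : Integrable (fun x => (2 * f x - kap f x) * nzs (G x) +
      kap f x * ((rho x ^ 2)⁻¹ * ‖G x (Pm d x)‖ ^ 2) -
      kap f x * ((rho x ^ 2)⁻¹ * ‖G x (Jm d x)‖ ^ 2) -
      2 * ∑ i : Fin d, fderiv ℝ f x (bv i.succ.succ) * ⟪G x (bv i.succ.succ), G x (Pm d x)⟫)
      (volume.restrict (ball (0 : V d) 2)) := by
    have h1 := bd_mul hG (c := fun x => 2 * f x - kap f x)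
      ((hf1.continuous.const_mul 2).sub hkfc) mn bn
    have h2 := bd_mul hG (c := fun x => kap f x) hkfc mp bp
    have h3 := bd_mul hG (c := fun x => kap f x) hkfc mj bj
    have h4 : ∀ i : Fin d, Integrable (fun x => fderiv ℝ f x (bv i.succ.succ) *
        ⟪G x (bv i.succ.succ), G x (Pm d x)⟫) (volume.restrict (ball (0 : V d) 2)) := fun i =>
      bd_mul hG (c := fun x => fderiv ℝ f x (bv i.succ.succ))
        ((hf1.continuous_fderiv (by norm_num)).clm_apply continuous_const) (inner_meas hG.1 i)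
        (ba i)
    have h5 := (integrable_finsetSum Finset.univ fun i _ => h4 i).const_mul 2
    exact ((h1.add h2).sub h3).sub h5
  have hmono := setIntegral_mono_on iA (((iD.const_mul C₁).add (iR.const_mul C₂)).add
    (iI.const_mul (4 / (2 - bb d)))) measurableSet_ball (fun x _ => by
      simp only [Pi.add_apply]
      by_cases hx4 : x ∈ ball (0 : V d) (1 / 4)
      · rw [indicator_of_mem hx4]
        exact pointwise hWTS hLA1 hd hz hσ (G x) (ball_subset_ball (by norm_num) hx4)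
      · rw [indicator_of_notMem hx4]
        have h0 : ζ x = 0 := by
          rw [mem_ball_zero_iff, not_lt] at hx4
          exact hz.zero x hx4
        have h1 : f x = 0 := by
          rw [hf]
          simp only
          rw [h0]
          ring
        have h2 : ∀ v : V d, fderiv ℝ f x v = 0 := by
          intro v
          rw [hf, fd_field hz.C1 w1, h0]
          ring
        have h3 : kap f x = 0 := by
          unfold kap
          rw [h2, neg_zero]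
        rw [h1, h3, h0]
        simp [h2])
  have e1 := integral_add ((iD.const_mul C₁).add (iR.const_mul C₂))
    (iI.const_mul (4 / (2 - bb d)))
  have e2 := integral_add (iD.const_mul C₁) (iR.const_mul C₂)
  rw [integral_const_mul, integral_const_mul] at e2
  rw [integral_const_mul, hP, mul_zero, add_zero] at e1
  have e3 : ∫ x in ball (0 : V d) 2,
      (ball (0 : V d) (1 / 4)).indicator (fun x => rho x ^ 2 * nsq (G x)) x = V2 G (1 / 4) := by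
    rw [setIntegral_indicator measurableSet_ball,
      inter_eq_right.2 (ball_subset_ball (by norm_num))]
    rfl
  rw [e3] at e2
  have hI0 : 0 ≤ ∫ x in ball (0 : V d) 2, ζ x ^ 2 *
      (kap (et σ) x * ((rho x ^ 2)⁻¹ * ‖G x (Jm d x)‖ ^ 2)) :=
    integral_nonneg fun x => mul_nonneg (sq_nonneg _) (mul_nonneg (hκ0 x) (hj0 x))
  have hV0 : 0 ≤ V2 G (1 / 4) :=
    integral_nonneg fun x => mul_nonneg (sq_nonneg _) (hN0 x)
  have e4 := (hmono.trans (le_of_eq e1)).trans (le_of_eq e2)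
  refine e4.trans ?_
  have h5 := mul_nonneg hC₂0 hI0
  have h6 := mul_nonneg hC₁0 hV0
  linarith

end Pool.Agent.H69.AN
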