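import Pool.Agent.H22.AN.TB3

/-! The Hessian bound in all dimensions (MP_2697e3_an): row TVL (volumes of tubes). -/

set_option autoImplicit false

namespace Pool.Agent.H69.AN

open MeasureTheory Metric Set Filter Topology Pool.Agent.H87.SN Pool.Agent.H87.SH Pool.Agent.H87.AX
open Pool.Agent.H22.AN
open scoped ContDiff RealInnerProductSpace ENNReal

noncomputable section

/-- the box -/
def bxs {d : ℕ} (p : V d) (s ρ : ℝ) : Set (V d) :=
  {y : V d | |y 0| < s ∧ |y 1| < s ∧ ∀ i : Fin d, |y i.succ.succ - p i.succ.succ| < ρ}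

theorem bxs_vol {d : ℕ} (p : V d) {s ρ : ℝ} (hs : 0 < s) (hρ : 0 < ρ) :
    volume (bxs p s ρ) ≤ ENNReal.ofReal (4 * 2 ^ d * s ^ 2 * ρ ^ d) := by
  set lo : Fin (d + 2) → ℝ := Fin.cons (-s) (Fin.cons (-s) fun i => p i.succ.succ - ρ) with hlo
  set hi : Fin (d + 2) → ℝ := Fin.cons s (Fin.cons s fun i => p i.succ.succ + ρ) with hhi
  set B : Set (Fin (d + 2) → ℝ) := Set.pi univ fun i => Ioo (lo i) (hi i) with hB
  have hsub : bxs p s ρ ⊆ (fun y : V d => WithLp.ofLp y) ⁻¹' B := by
    rintro y ⟨h0, h1, h2⟩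
    rw [mem_preimage, hB, mem_univ_pi]
    intro i
    refine Fin.cases ?_ (fun j => ?_) i
    · exact ⟨(abs_lt.1 h0).1, (abs_lt.1 h0).2⟩
    · refine Fin.cases ?_ (fun k => ?_) j
      · exact ⟨(abs_lt.1 h1).1, (abs_lt.1 h1).2⟩
      · have h3 := abs_lt.1 (h2 k)
        constructor
        · change p k.succ.succ - ρ < y k.succ.succ
          linarith [h3.1]
        · change y k.succ.succ < p k.succ.succ + ρ
          linarith [h3.2]
  have hBm : MeasurableSet B := MeasurableSet.univ_pi fun i => measurableSet_Ioo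
  calc volume (bxs p s ρ) ≤ volume ((fun y : V d => WithLp.ofLp y) ⁻¹' B) := measure_mono hsub
    _ = volume B := (PiLp.volume_preserving_ofLp (Fin (d + 2))).measure_preimage
        hBm.nullMeasurableSet
    _ = ∏ i, ENNReal.ofReal (hi i - lo i) := Real.volume_pi_Ioo
    _ = ENNReal.ofReal (4 * 2 ^ d * s ^ 2 * ρ ^ d) := by
        rw [Fin.prod_univ_succ, Fin.prod_univ_succ]
        have e0 : hi 0 - lo 0 = 2 * s := by
          simp only [hlo, hhi, Fin.cons_zero]
          ring
        have e1 : hi (Fin.succ 0) - lo (Fin.succ 0) = 2 * s := by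
          simp only [hlo, hhi, Fin.cons_succ, Fin.cons_zero]
          ring
        have e2 : ∀ i : Fin d, hi i.succ.succ - lo i.succ.succ = 2 * ρ := by
          intro i
          simp only [hlo, hhi, Fin.cons_succ]
          ring
        rw [e0, e1]
        simp only [e2, Finset.prod_const, Finset.card_univ, Fintype.card_fin]
        rw [← ENNReal.ofReal_pow (by positivity), ← ENNReal.ofReal_mul (by positivity),
          ← ENNReal.ofReal_mul (by positivity)]
        congr 1
        rw [mul_pow]
        ring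

/-- The statement of the row TVL. -/
theorem pf_TVL (hISO : T_ISO) : T_TVL := by
  intro d
  refine ⟨4 * 2 ^ d, by positivity, ?_⟩
  intro a ν₁ ν₂ c s ρ hON hs hsρ
  obtain ⟨g, -, -, hg⟩ := hISO d ν₁ ν₂ hON
  set S : Set (V d) := {x : V d | x ∈ ball c ρ ∧ dl a ν₁ ν₂ x < s ^ 2} with hS
  have hSo : IsOpen S := by
    refine isOpen_ball.inter ?_
    have hc : Continuous (fun x : V d => dl a ν₁ ν₂ x) := by
      unfold dl
      fun_prop
    exact isOpen_lt hc continuous_const
  have hmp : MeasurePreserving (fun y : V d => zm a 1 g y) volume volume := by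
    have h1 : MeasurePreserving (fun y : V d => a + y) volume volume :=
      measurePreserving_add_left volume a
    have h2 := h1.comp g.measurePreserving
    have e : (fun y : V d => zm a 1 g y) = (fun y : V d => a + y) ∘ g := by
      ext y
      simp [zm]
    rw [e]
    exact h2
  rw [← hmp.measure_preimage hSo.measurableSet.nullMeasurableSet]
  refine (measure_mono ?_).trans (bxs_vol (g.symm (c - a)) hs (lt_of_lt_of_le hs hsρ))
  rintro y ⟨hy1, hy2⟩
  rw [hg a 1 y, one_pow, one_mul] at hy2
  have hr : rho y ^ 2 = y 0 ^ 2 + y 1 ^ 2 := by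
    rw [rho, Real.sq_sqrt (by positivity)]
  rw [hr] at hy2
  have hball : ‖y - g.symm (c - a)‖ < ρ := by
    rw [mem_ball, dist_eq_norm] at hy1
    have e : zm a 1 g y - c = g (y - g.symm (c - a)) := by
      rw [map_sub, g.apply_symm_apply, zm, one_smul]
      abel
    rwa [e, g.norm_map] at hy1
  refine ⟨?_, ?_, ?_⟩
  · exact abs_lt_of_sq_lt_sq (by nlinarith [sq_nonneg (y 1)]) hs.le
  · exact abs_lt_of_sq_lt_sq (by nlinarith [sq_nonneg (y 0)]) hs.le
  · intro i
    have h1 := PiLp.norm_apply_le (y - g.symm (c - a)) i.succ.succ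
    rw [Real.norm_eq_abs] at h1
    exact lt_of_le_of_lt h1 hball

end

end Pool.Agent.H69.AN
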